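import Pool.Agent.N208.TS.Main
import Pool.Agent.N208.CT.Main

set_option autoImplicit false
set_option linter.unusedSectionVars false

/-!
# The endomorphisms of the adjoint motive decide
-/

open Module Function TensorProduct Matrix

open scoped Kronecker

noncomputable section

namespace Pool.Agent.U157.FP

open Pool.Agent.Y102 Pool.Agent.W516.DR Pool.Agent.H204R3.GP Pool.Agent.W516.KC
  Pool.Agent.H204R3.SP Pool.Agent.TH119.MX Pool.Agent.R917 Pool.Agent.N208.AM Pool.Agent.N208.AD
  Pool.Agent.N208.TS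

variable {g : ℕ} {A : AbVar g} {s n : ℕ} {r : Fin s → ℕ} {B : Fin n → Ten A r} {w : Fin s → ℤ}
  {P : Matrix (Fin n) (Fin n) ℂ} {H : Set (Matrix (Fin n) (Fin n) ℂ)}
  {Wt : Matrix (Fin n) (Fin n) ℚ} {N : Matrix (Fin n) (Fin n) ℝ}

/-- The Mumford-Tate group is in the group, if the square of the adjoint motive has no classes which
are not Hodge classes, and if the centre acts trivially or is rigid. -/
theorem sq_all (h : Mot w B P) (hW : WRel w B Wt) (hH : PtM P H)
    (hc : NoCentre B ∨ Pool.Agent.N208.CT.Rigid A) (hN : RelR B AbVar.JJ N)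
    (hs : SqHodge B P N) {z : ℂ} (hz : z ≠ 0) :
    NormedSpace.exp (KK Wt N z) ∈ H ∧ HRel w B z (NormedSpace.exp (KK Wt N z)) := by
  rcases hc with hc | hc
  · exact sq_B h hW hH hc hN hs hz
  · have h5 := N_cdM h hW hH hN hs
    refine ⟨exp_mem hH.grp fun d => ?_, hrel_exp hW hN hz⟩
    unfold KK
    have h6 : Stab H d (cxm N) := by
      have key : ∀ M ∈ Submodule.span ℝ {M | ∃ x ∈ cdM B Wt H, M = rq x}, Stab H d (cxm M) := by
        intro M hM
        induction hM using Submodule.span_induction with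
        | mem M hM =>
          obtain ⟨x, ⟨Z, hZ, d', hd', M1, M2, h1, h2, rfl⟩, rfl⟩ := hM
          have e1 : cxm (rq (M1 + M2)) = cq M1 + cq M2 := by
            ext i j
            simp [cxm]
          have hZ' : Z ∈ A.CN := by rw [← Pool.Agent.N208.CT.cenA_eq]; exact hZ
          obtain ⟨-, M', h6, h7⟩ := der_mem h hW hd'
          rw [e1]
          refine (Pool.Agent.N208.CT.cen_mem h hW hH hc hZ' h1 d).add ?_
          rw [h2.uniq h.li h6]
          exact h7 d
        | zero =>
          have h3 : cxm (0 : Matrix (Fin n) (Fin n) ℝ) = 0 := by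
            ext i j
            simp [cxm]
          rw [h3]
          exact Stab.zero
        | add a b _ _ ha hb =>
          have h3 : cxm (a + b) = cxm a + cxm b := by
            ext i j
            simp [cxm]
          rw [h3]
          exact ha.add hb
        | smul c a _ ha =>
          have h3 : cxm (c • a) = (c : ℂ) • cxm a := by
            ext i j
            simp [cxm]
          rw [h3]
          exact ha.smul _
      exact key N h5
    exact ((Pool.Agent.N208.CT.Wt_mem' h hW hH d).smul _).add (h6.smul _)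

/-- All de Rham-Betti classes in the square of the adjoint motive are annihilated by the Lie algebra of
the Hodge group. -/
def SqInv (B : Fin n → Ten A r) (P : Matrix (Fin n) (Fin n) ℂ) : Prop :=
  ∀ C ∈ adSq B, (∀ p q, IsAlgebraic ℚ (((P⁻¹ ⊗ₖ P⁻¹) * C.map (fun x => (x : ℂ)) *
    (P ⊗ₖ P)) p q)) → ∀ X ∈ A.NA, ∀ M, Rel B X M → cm2 M C = 0

/-- The derived algebra is in the Lie algebra of the group. -/
theorem inv_der (h : Mot w B P) (hW : WRel w B Wt) (hH : PtM P H) (hs : SqInv B P)
    {X Y : Module.End ℚ A.H1} (hX : X ∈ A.NA) (hY : Y ∈ A.NA) {Z : Matrix (Fin n) (Fin n) ℚ}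
    (hZ : Rel B (X * Y - Y * X) Z) : Z ∈ LQ H := by
  have hq := qM_full h hW hH
  have hk : kerM B ≤ qM B Wt H := fun Y hY => ⟨hY.1, 0, hY.2, 0, by
    rw [zero_smul, add_zero]
    exact (LQ H).zero_mem⟩
  have key : ∀ X ∈ A.NA, ∃ Y ∈ qM B Wt H, X - Y ∈ cenA A := by
    intro X hX
    obtain ⟨M, hM⟩ := h.st X hX
    exact norm_dec hq hX (cas_norm h hq hk hX hM
      (hs _ (casM_mem h hq.le (trace_full hq)) (cas_alg h hW hH) X hX M hM))
  obtain ⟨X', hX', hXc⟩ := key X hX
  obtain ⟨Y', hY', hYc⟩ := key Y hY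
  have e1 : X * Y - Y * X = X' * Y' - Y' * X' := by
    have h1 := hXc.2 Y hY
    have h2 := hYc.2 X' (hq.le hX')
    have e2 : X * Y - Y * X = X' * Y - Y * X' := by
      rw [sub_mul, mul_sub] at h1
      have h3 : X * Y - Y * X = (X * Y - X' * Y) - (Y * X - Y * X') + (X' * Y - Y * X') := by abel
      rw [h3, h1, sub_self, zero_add]
    rw [e2]
    rw [sub_mul, mul_sub] at h2
    have h3 : X' * Y - Y * X' = (X' * Y - X' * Y') - (Y * X' - Y' * X') + (X' * Y' - Y' * X') := by
      abel
    rw [h3, h2, sub_self, zero_add]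
  rw [e1] at hZ
  exact qM_br h hW hX' hY' hZ

/-- The centre commutes with the classes in the square of the adjoint motive. -/
theorem cen_sq (h : Mot w B P) {C : Matrix (Fin n × Fin n) (Fin n × Fin n) ℚ} (hC : C ∈ adSq B)
    {Z : Module.End ℚ A.H1} (hZ : Z ∈ cenA A) {M : Matrix (Fin n) (Fin n) ℚ} (hM : Rel B Z M) :
    cm2 M C = 0 := by
  have hcomm : ∀ {Y : Module.End ℚ A.H1} {M' : Matrix (Fin n) (Fin n) ℚ}, Y ∈ A.NA →
      Rel B Y M' → M * M' - M' * M = 0 := by
    intro Y M' hY hM'
    have e1 := hM'.br hM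
    rw [← hZ.2 Y hY, sub_self] at e1
    exact (Rel.zero.uniq h.li e1).symm
  induction hC using Submodule.span_induction with
  | mem x hx =>
    obtain ⟨X, Y, hX, hY, M1, M2, h1, h2, rfl⟩ := hx
    rw [cm2_kr, hcomm hX h1, hcomm hY h2, Matrix.zero_kronecker, Matrix.kronecker_zero, add_zero]
  | zero =>
    unfold cm2
    rw [Matrix.mul_zero, Matrix.zero_mul, sub_zero]
  | add a b _ _ ha hb =>
    unfold cm2 at ha hb ⊢
    rw [Matrix.mul_add, Matrix.add_mul]
    have h3 : op2 M * a + op2 M * b - (a * op2 M + b * op2 M) =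
        (op2 M * a - a * op2 M) + (op2 M * b - b * op2 M) := by abel
    rw [h3, ha, hb, add_zero]
  | smul c a _ ha =>
    unfold cm2 at ha ⊢
    rw [Matrix.mul_smul, Matrix.smul_mul, ← smul_sub, ha, smul_zero]

/-- If the derived algebra annihilates a class in the square of the adjoint motive, the Lie algebra of
the Hodge group annihilates it. -/
theorem inv_of_der (h : Mot w B P) {C : Matrix (Fin n × Fin n) (Fin n × Fin n) ℚ} (hC : C ∈ adSq B)
    (hd : ∀ X ∈ A.NA, ∀ Y ∈ A.NA, ∀ Z, Rel B (X * Y - Y * X) Z → cm2 Z C = 0) :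
    ∀ X ∈ A.NA, ∀ M, Rel B X M → cm2 M C = 0 := by
  intro X hX M hM
  obtain ⟨Z, hZ, d, hd', rfl, hcomm⟩ := full_NA.dec hX
  obtain ⟨M1, hM1⟩ := h.st Z hZ
  obtain ⟨M2, hM2⟩ := h.st d (der_NA_le hd')
  rw [hM.uniq h.li (hM1.add hM2), cm2_add, cen_sq h hC ⟨hZ, hcomm⟩ hM1, zero_add]
  have key : ∀ d ∈ der A.NA, ∀ M, Rel B d M → cm2 M C = 0 := by
    intro d hd'
    unfold der at hd'
    induction hd' using Submodule.span_induction with
    | mem z hz =>
      obtain ⟨x, hx, y, hy, rfl⟩ := hz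
      intro M hM
      exact hd x hx y hy M hM
    | zero =>
      intro M hM
      rw [hM.uniq h.li Rel.zero]
      unfold cm2 op2
      rw [Matrix.zero_kronecker, Matrix.kronecker_zero, add_zero, Matrix.zero_mul,
        Matrix.mul_zero, sub_zero]
    | add a b ha' hb' ha hb =>
      intro M hM
      obtain ⟨Ma, hMa⟩ := h.st a (der_NA_le ha')
      obtain ⟨Mb, hMb⟩ := h.st b (der_NA_le hb')
      rw [hM.uniq h.li (hMa.add hMb), cm2_add, ha Ma hMa, hb Mb hMb, add_zero]
    | smul c a ha' ha =>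
      intro M hM
      obtain ⟨Ma, hMa⟩ := h.st a (der_NA_le ha')
      rw [hM.uniq h.li (hMa.smul c), cm2_smul, ha Ma hMa, smul_zero]
  exact key d hd' M2 hM2

end Pool.Agent.U157.FP
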