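import Mathlib

set_option autoImplicit false
set_option linter.unusedSectionVars false

/-!
# Tensor powers of matrices, stabilizers of tensors, algebraic points
-/

open Matrix

open scoped Kronecker

noncomputable section

namespace Pool.Agent.U157.FP

section Pow

variable {ι : Type} [Fintype ι] [DecidableEq ι] {R : Type} [CommRing R]

/-- The tensor power of a matrix. -/
def pw (a : ℕ) (X : Matrix ι ι R) : Matrix (Fin a → ι) (Fin a → ι) R :=
  Matrix.of fun i j => ∏ k, X (i k) (j k)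

theorem pw_apply (a : ℕ) (X : Matrix ι ι R) (i j : Fin a → ι) :
    pw a X i j = ∏ k, X (i k) (j k) := rfl

theorem pw_mul (a : ℕ) (X Y : Matrix ι ι R) : pw a (X * Y) = pw a X * pw a Y := by
  ext i j
  rw [pw_apply, Matrix.mul_apply]
  simp only [Matrix.mul_apply, pw_apply]
  rw [Finset.prod_univ_sum]
  simp only [Fintype.piFinset_univ, Finset.prod_mul_distrib]

theorem pw_one (a : ℕ) : pw a (1 : Matrix ι ι R) = 1 := by
  ext i j
  rw [pw_apply]
  by_cases h : i = j
  · subst h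
    rw [Matrix.one_apply_eq]
    exact Finset.prod_eq_one fun k _ => Matrix.one_apply_eq _
  · rw [Matrix.one_apply_ne h]
    obtain ⟨k, hk⟩ := Function.ne_iff.1 h
    exact Finset.prod_eq_zero (Finset.mem_univ k) (Matrix.one_apply_ne hk)

theorem pw_map {S : Type} [CommRing S] (f : R →+* S) (a : ℕ) (X : Matrix ι ι R) :
    (pw a X).map f = pw a (X.map f) := by
  ext i j
  rw [Matrix.map_apply, pw_apply, pw_apply, map_prod]
  rfl

end Pow

section Stab

variable {ι : Type} [Fintype ι] [DecidableEq ι] {a b : ℕ}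

/-- The stabilizer of a tensor. -/
def stab (C : Matrix (Fin a → ι) (Fin b → ι) ℂ) : Subgroup (GL ι ℂ) where
  carrier := {x | pw a (x : Matrix ι ι ℂ) * C = C * pw b (x : Matrix ι ι ℂ)}
  mul_mem' := by
    intro x y hx hy
    have hx' : pw a (x : Matrix ι ι ℂ) * C = C * pw b (x : Matrix ι ι ℂ) := hx
    have hy' : pw a (y : Matrix ι ι ℂ) * C = C * pw b (y : Matrix ι ι ℂ) := hy
    change pw a ((x * y : GL ι ℂ) : Matrix ι ι ℂ) * C = C * pw b ((x * y : GL ι ℂ) : Matrix ι ι ℂ)
    have e : ((x * y : GL ι ℂ) : Matrix ι ι ℂ) = (x : Matrix ι ι ℂ) * (y : Matrix ι ι ℂ) := rfl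
    rw [e, pw_mul, pw_mul, Matrix.mul_assoc, hy', ← Matrix.mul_assoc, hx', Matrix.mul_assoc]
  one_mem' := by
    change pw a ((1 : GL ι ℂ) : Matrix ι ι ℂ) * C = C * pw b ((1 : GL ι ℂ) : Matrix ι ι ℂ)
    have e : ((1 : GL ι ℂ) : Matrix ι ι ℂ) = 1 := rfl
    rw [e, pw_one, pw_one, Matrix.one_mul, Matrix.mul_one]
  inv_mem' := by
    intro x hx
    have hx' : pw a (x : Matrix ι ι ℂ) * C = C * pw b (x : Matrix ι ι ℂ) := hx
    change pw a ((x⁻¹ : GL ι ℂ) : Matrix ι ι ℂ) * C = C * pw b ((x⁻¹ : GL ι ℂ) : Matrix ι ι ℂ)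
    have e1 : ((x⁻¹ : GL ι ℂ) : Matrix ι ι ℂ) * (x : Matrix ι ι ℂ) = 1 := x.inv_mul
    have e2 : (x : Matrix ι ι ℂ) * ((x⁻¹ : GL ι ℂ) : Matrix ι ι ℂ) = 1 := x.mul_inv
    set y := ((x⁻¹ : GL ι ℂ) : Matrix ι ι ℂ)
    have e3 : pw a y * (pw a (x : Matrix ι ι ℂ) * C) * pw b y =
        pw a y * (C * pw b (x : Matrix ι ι ℂ)) * pw b y := by rw [hx']
    rw [← Matrix.mul_assoc, ← pw_mul, e1, pw_one, Matrix.one_mul, Matrix.mul_assoc,
      Matrix.mul_assoc, ← pw_mul, e2, pw_one, Matrix.mul_one] at e3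
    exact e3.symm

theorem mem_stab {C : Matrix (Fin a → ι) (Fin b → ι) ℂ} {x : GL ι ℂ} :
    x ∈ stab C ↔ pw a (x : Matrix ι ι ℂ) * C = C * pw b (x : Matrix ι ι ℂ) := Iff.rfl

open MvPolynomial in
/-- The stabilizer of a rational tensor is an algebraic group over `ℚ`. -/
theorem stab_alg (C : Matrix (Fin a → ι) (Fin b → ι) ℚ) :
    ∃ I : Set (MvPolynomial (ι × ι) ℚ), ∀ x : GL ι ℂ, x ∈ stab (C.map fun q => (q : ℂ)) ↔
      ∀ p ∈ I, MvPolynomial.aeval (fun b : ι × ι => (x : Matrix ι ι ℂ) b.1 b.2) p = 0 := by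
  let Xg : Matrix ι ι (MvPolynomial (ι × ι) ℚ) := Matrix.of fun i j => X (i, j)
  let Cg : Matrix (Fin a → ι) (Fin b → ι) (MvPolynomial (ι × ι) ℚ) := C.map MvPolynomial.C
  refine ⟨{p | ∃ i j, p = (pw a Xg * Cg) i j - (Cg * pw b Xg) i j}, fun x => ?_⟩
  set f : MvPolynomial (ι × ι) ℚ →ₐ[ℚ] ℂ := aeval fun b : ι × ι => (x : Matrix ι ι ℂ) b.1 b.2
  have hX : Xg.map f.toRingHom = (x : Matrix ι ι ℂ) := by
    ext i j
    change f (X (i, j)) = _
    rw [aeval_X]
  have hC : Cg.map f.toRingHom = C.map fun q => (q : ℂ) := by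
    ext i j
    change f (MvPolynomial.C (C i j)) = ((C i j : ℚ) : ℂ)
    rw [← MvPolynomial.algebraMap_eq, f.commutes]
    rfl
  have h1 : ∀ i j, f ((pw a Xg * Cg) i j) =
      (pw a (x : Matrix ι ι ℂ) * C.map fun q => (q : ℂ)) i j := by
    intro i j
    have h := congrFun (congrFun (Matrix.map_mul (f := f.toRingHom) (L := pw a Xg) (M := Cg)) i) j
    rw [pw_map, hX, hC] at h
    exact h
  have h2 : ∀ i j, f ((Cg * pw b Xg) i j) =
      ((C.map fun q => (q : ℂ)) * pw b (x : Matrix ι ι ℂ)) i j := by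
    intro i j
    have h := congrFun (congrFun (Matrix.map_mul (f := f.toRingHom) (L := Cg) (M := pw b Xg)) i) j
    rw [pw_map, hX, hC] at h
    exact h
  rw [mem_stab]
  constructor
  · rintro h _ ⟨i, j, rfl⟩
    rw [map_sub, h1, h2, h, sub_self]
  · intro h
    ext i j
    have h3 := h _ ⟨i, j, rfl⟩
    rw [map_sub, h1, h2] at h3
    exact sub_eq_zero.1 h3

end Stab

section Null

open MvPolynomial

/-- equations solvable over an extension are solvable over an algebraically closed field -/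
theorem null {k L τ : Type} [Field k] [Field L] [Algebra k L] [IsAlgClosed k] [Finite τ]
    (S : Set (MvPolynomial τ k)) (y : τ → L) (hy : ∀ p ∈ S, aeval y p = 0) :
    ∃ x : τ → k, ∀ p ∈ S, eval x p = 0 := by
  have hI : Ideal.span S ≠ ⊤ := by
    intro h
    have h1 : (1 : MvPolynomial τ k) ∈ Ideal.span S := h ▸ Submodule.mem_top
    have h2 : Ideal.span S ≤ RingHom.ker (aeval y : MvPolynomial τ k →ₐ[k] L) :=
      Ideal.span_le.2 fun p hp => hy p hp
    have h3 := h2 h1
    rw [RingHom.mem_ker, map_one] at h3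
    exact one_ne_zero h3
  obtain ⟨M, hM, hIM⟩ := Ideal.exists_le_maximal _ hI
  obtain ⟨x, hx⟩ := eq_vanishingIdeal_singleton_of_isMaximal (k := k) k hM
  refine ⟨x, fun p hp => ?_⟩
  have h1 : p ∈ M := hIM (Ideal.subset_span hp)
  rw [hx, mem_vanishingIdeal_singleton_iff] at h1
  simpa using h1

variable {ι : Type} [Fintype ι] [DecidableEq ι] {a b : ℕ}

/-- A torsor defined over the algebraic numbers has an algebraic point. -/
theorem alg_point (C : Matrix (Fin a → ι) (Fin b → ι) ℚ)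
    {D : Matrix (Fin a → ι) (Fin b → ι) ℂ} (hD : ∀ i j, IsAlgebraic ℚ (D i j))
    {P P' : Matrix ι ι ℂ} (h1 : P * P' = 1) (h2 : P' * P = 1)
    (h : pw a P * D = (C.map fun q => (q : ℂ)) * pw b P) :
    ∃ T T' : Matrix ι ι ℂ, T * T' = 1 ∧ T' * T = 1 ∧ (∀ i j, IsAlgebraic ℚ (T i j)) ∧
      pw a T * (C.map fun q => (q : ℂ)) = D * pw b T := by
  classical
  let K := algebraicClosure ℚ ℂ
  have hKc : IsAlgClosed K := (algebraicClosure.isAlgClosure ℚ ℂ).isAlgClosed
  let D0 : Matrix (Fin a → ι) (Fin b → ι) K :=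
    Matrix.of fun i j => ⟨D i j, mem_algebraicClosure_iff.2 (hD i j)⟩
  have hD0 : D0.map (algebraMap K ℂ) = D := rfl
  let τ := (ι × ι) ⊕ (ι × ι)
  let X1 : Matrix ι ι (MvPolynomial τ K) := Matrix.of fun i j => X (Sum.inl (i, j))
  let X2 : Matrix ι ι (MvPolynomial τ K) := Matrix.of fun i j => X (Sum.inr (i, j))
  let Cg : Matrix (Fin a → ι) (Fin b → ι) (MvPolynomial τ K) :=
    C.map fun q => MvPolynomial.C (q : K)
  let Dg : Matrix (Fin a → ι) (Fin b → ι) (MvPolynomial τ K) := D0.map MvPolynomial.C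
  let E1 : Matrix (Fin a → ι) (Fin b → ι) (MvPolynomial τ K) := pw a X1 * Cg - Dg * pw b X1
  let E2 : Matrix ι ι (MvPolynomial τ K) := X1 * X2 - 1
  let S : Set (MvPolynomial τ K) := {p | (∃ i j, p = E1 i j) ∨ ∃ i j, p = E2 i j}
  -- the evaluation of the equations
  have key : ∀ {L : Type} [Field L] [Algebra K L] (f : MvPolynomial τ K →ₐ[K] L)
      (Y1 Y2 : Matrix ι ι L), X1.map f.toRingHom = Y1 → X2.map f.toRingHom = Y2 →
      E1.map f.toRingHom = pw a Y1 * (C.map fun q => (q : L)) -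
        (D0.map (algebraMap K L)) * pw b Y1 ∧ E2.map f.toRingHom = Y1 * Y2 - 1 := by
    intro L _ _ f Y1 Y2 e1 e2
    have hC : Cg.map f.toRingHom = C.map fun q => (q : L) := by
      ext i j
      change f (MvPolynomial.C ((C i j : ℚ) : K)) = ((C i j : ℚ) : L)
      rw [← MvPolynomial.algebraMap_eq, f.commutes, map_ratCast]
    have hDg : Dg.map f.toRingHom = D0.map (algebraMap K L) := by
      ext i j
      change f (MvPolynomial.C (D0 i j)) = algebraMap K L (D0 i j)
      rw [← MvPolynomial.algebraMap_eq, f.commutes]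
    constructor
    · have h3 : E1.map f.toRingHom = (pw a X1 * Cg).map f.toRingHom -
          (Dg * pw b X1).map f.toRingHom := by
        ext i j
        exact map_sub f _ _
      rw [h3, Matrix.map_mul, Matrix.map_mul, pw_map, pw_map, e1, hC, hDg]
    · have h3 : E2.map f.toRingHom = (X1 * X2).map f.toRingHom - 1 := by
        ext i j
        have h4 : E2.map f.toRingHom i j = f ((X1 * X2) i j) -
            f ((1 : Matrix ι ι (MvPolynomial τ K)) i j) := map_sub f _ _
        have h5 : f ((1 : Matrix ι ι (MvPolynomial τ K)) i j) = (1 : Matrix ι ι L) i j := by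
          rw [Matrix.one_apply, Matrix.one_apply]
          split_ifs
          · exact map_one f
          · exact map_zero f
        rw [h4, h5]
        rfl
      rw [h3, Matrix.map_mul, e1, e2]
  have hsol : ∀ p ∈ S, aeval (Sum.elim (fun q : ι × ι => P' q.1 q.2) fun q : ι × ι => P q.1 q.2)
      p = 0 := by
    have hk := key (aeval (Sum.elim (fun q : ι × ι => P' q.1 q.2)
      fun q : ι × ι => P q.1 q.2)) P' P
      (by
        ext i j
        change aeval _ (X (Sum.inl (i, j))) = _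
        rw [aeval_X]
        rfl)
      (by
        ext i j
        change aeval _ (X (Sum.inr (i, j))) = _
        rw [aeval_X]
        rfl)
    have e4 : pw a P' * (C.map fun q => (q : ℂ)) = D * pw b P' := by
      have e5 : pw a P' * (pw a P * D) * pw b P' =
          pw a P' * ((C.map fun q => (q : ℂ)) * pw b P) * pw b P' := by rw [h]
      rw [← Matrix.mul_assoc, ← pw_mul, h2, pw_one, Matrix.one_mul, Matrix.mul_assoc,
        Matrix.mul_assoc, ← pw_mul, h1, pw_one, Matrix.mul_one] at e5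
      exact e5.symm
    rw [hD0, e4, sub_self, h2, sub_self] at hk
    rintro p (⟨i, j, rfl⟩ | ⟨i, j, rfl⟩)
    · exact congrFun (congrFun hk.1 i) j
    · exact congrFun (congrFun hk.2 i) j
  obtain ⟨x, hx⟩ := null S _ hsol
  let T1 : Matrix ι ι K := Matrix.of fun i j => x (Sum.inl (i, j))
  let T2 : Matrix ι ι K := Matrix.of fun i j => x (Sum.inr (i, j))
  have hk := key (aeval x) T1 T2
    (by
      refine Matrix.ext fun i j => ?_
      change aeval _ (X (Sum.inl (i, j))) = _
      rw [aeval_X]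
      rfl)
    (by
      refine Matrix.ext fun i j => ?_
      change aeval _ (X (Sum.inr (i, j))) = _
      rw [aeval_X]
      rfl)
  have hz1 : E1.map (aeval x : MvPolynomial τ K →ₐ[K] K).toRingHom = 0 := by
    refine Matrix.ext fun i j => ?_
    have h3 := hx _ (Or.inl ⟨i, j, rfl⟩)
    change aeval x (E1 i j) = 0
    rwa [aeval_eq_eval]
  have hz2 : E2.map (aeval x : MvPolynomial τ K →ₐ[K] K).toRingHom = 0 := by
    refine Matrix.ext fun i j => ?_
    have h3 := hx _ (Or.inr ⟨i, j, rfl⟩)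
    change aeval x (E2 i j) = 0
    rwa [aeval_eq_eval]
  rw [hz1, hz2] at hk
  have h12 : T1 * T2 = 1 := (sub_eq_zero.1 hk.2.symm)
  have h21 : T2 * T1 = 1 := mul_eq_one_comm.1 h12
  have hE : pw a T1 * (C.map fun q => (q : K)) = D0 * pw b T1 := by
    have h3 := sub_eq_zero.1 hk.1.symm
    rw [h3]
    rfl
  have hm : ∀ {m n p : Type} [Fintype n] (Y : Matrix m n K) (Z : Matrix n p K),
      (Y * Z).map (algebraMap K ℂ) = Y.map (algebraMap K ℂ) * Z.map (algebraMap K ℂ) :=
    fun Y Z => Matrix.map_mul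
  have ho : (1 : Matrix ι ι K).map (algebraMap K ℂ) = 1 := by
    ext i j
    rw [Matrix.map_apply, Matrix.one_apply, Matrix.one_apply]
    split_ifs
    · exact map_one _
    · exact map_zero _
  refine ⟨T1.map (algebraMap K ℂ), T2.map (algebraMap K ℂ), ?_, ?_, fun i j => ?_, ?_⟩
  · rw [← hm, h12, ho]
  · rw [← hm, h21, ho]
  · exact mem_algebraicClosure_iff.1 (T1 i j).2
  · have h3 := congrArg (fun Y : Matrix (Fin a → ι) (Fin b → ι) K => Y.map (algebraMap K ℂ)) hE
    rw [hm, hm, pw_map, pw_map, hD0] at h3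
    have h4 : (C.map fun q => (q : K)).map (algebraMap K ℂ) = C.map fun q => (q : ℂ) := by
      ext i j
      change algebraMap K ℂ ((C i j : ℚ) : K) = ((C i j : ℚ) : ℂ)
      rw [map_ratCast]
    rwa [h4] at h3

end Null

end Pool.Agent.U157.FP
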