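import Pool.Agent.U157.FP.Core
import Pool.Agent.U157.FP.Pow

set_option autoImplicit false
set_option linter.unusedSectionVars false

/-!
# The stabilizer of a tensor in degree four and its Lie algebra
-/

open Module Function TensorProduct Matrix Filter Topology

open scoped Kronecker

noncomputable section

namespace Pool.Agent.U157.FP

open Pool.Agent.Y102 Pool.Agent.W516.DR Pool.Agent.H204R3.GP Pool.Agent.W516.KC
  Pool.Agent.H204R3.SP Pool.Agent.TH119.MX Pool.Agent.R917 Pool.Agent.N208.AM Pool.Agent.N208.AD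
  Pool.Agent.N208.TS

variable {n : ℕ}

/-- The derivative of the exponential at zero. -/
theorem deriv_exp (X : Matrix (Fin n) (Fin n) ℂ) (i j : Fin n) :
    HasDerivAt (fun t : ℝ => NormedSpace.exp ((t : ℂ) • X) i j) (X i j) 0 := by
  have h1 := (hasDerivAt_entry 1 X i j ((0 : ℝ) : ℂ)).comp_ofReal
  simp only [Matrix.one_mul, Complex.ofReal_zero, zero_smul, NormedSpace.exp_zero] at h1
  exact h1

/-- The operator is annihilated by the Lie algebra, if it commutes with the group. -/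
theorem cm2_of_exp {X : Matrix (Fin n) (Fin n) ℂ}
    {C : Matrix (Fin n × Fin n) (Fin n × Fin n) ℂ}
    (h : ∀ᶠ t : ℝ in 𝓝 0, (NormedSpace.exp ((t : ℂ) • X) ⊗ₖ NormedSpace.exp ((t : ℂ) • X)) * C =
      C * (NormedSpace.exp ((t : ℂ) • X) ⊗ₖ NormedSpace.exp ((t : ℂ) • X))) : cm2 X C = 0 := by
  have hE : ∀ p q : Fin n × Fin n, HasDerivAt
      (fun t : ℝ => (NormedSpace.exp ((t : ℂ) • X) ⊗ₖ NormedSpace.exp ((t : ℂ) • X)) p q)
      (op2 X p q) 0 := by
    rintro ⟨i, k⟩ ⟨j, l⟩
    have h1 := (deriv_exp X i j).mul (deriv_exp X k l)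
    simp only [Complex.ofReal_zero, zero_smul, NormedSpace.exp_zero] at h1
    refine h1.congr_deriv ?_
    unfold op2
    rw [Matrix.add_apply, Matrix.kronecker_apply, Matrix.kronecker_apply]
  ext p q
  rw [Matrix.zero_apply]
  have h2 : HasDerivAt (fun t : ℝ =>
      ((NormedSpace.exp ((t : ℂ) • X) ⊗ₖ NormedSpace.exp ((t : ℂ) • X)) * C) p q -
      (C * (NormedSpace.exp ((t : ℂ) • X) ⊗ₖ NormedSpace.exp ((t : ℂ) • X))) p q)
      (cm2 X C p q) 0 := by
    unfold cm2
    rw [Matrix.sub_apply]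
    simp only [Matrix.mul_apply]
    refine HasDerivAt.sub ?_ ?_
    · exact HasDerivAt.fun_sum fun r _ => (hE p r).mul_const (C r q)
    · exact HasDerivAt.fun_sum fun r _ => (hE r q).const_mul (C p r)
  refine h2.unique ?_
  refine (hasDerivAt_const (0 : ℝ) (0 : ℂ)).congr_of_eventuallyEq ?_
  filter_upwards [h] with t ht
  rw [ht, sub_self]

/-- The complex matrix of the commutator. -/
theorem cm2_cq (M : Matrix (Fin n) (Fin n) ℚ) (C : Matrix (Fin n × Fin n) (Fin n × Fin n) ℚ) :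
    cm2 (M.map fun q => (q : ℂ)) (C.map fun q => (q : ℂ)) = (cm2 M C).map fun q => (q : ℂ) := by
  have h1 : op2 (M.map fun q => (q : ℂ)) = (op2 M).map fun q => (q : ℂ) := by
    ext ⟨i, k⟩ ⟨j, l⟩
    unfold op2
    simp only [Matrix.add_apply, Matrix.kronecker_apply, Matrix.map_apply, Matrix.one_apply]
    split_ifs <;> simp
  unfold cm2
  rw [h1]
  ext p q
  simp only [Matrix.sub_apply, Matrix.mul_apply, Matrix.map_apply]
  push_cast
  rfl

theorem cm2_cq_eq_zero {M : Matrix (Fin n) (Fin n) ℚ}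
    {C : Matrix (Fin n × Fin n) (Fin n × Fin n) ℚ}
    (h : cm2 (M.map fun q => (q : ℂ)) (C.map fun q => (q : ℂ)) = 0) : cm2 M C = 0 := by
  rw [cm2_cq] at h
  ext p q
  have h1 := congrFun (congrFun h p) q
  simpa using h1

theorem cm2_cx_eq_zero {N : Matrix (Fin n) (Fin n) ℝ}
    {C : Matrix (Fin n × Fin n) (Fin n × Fin n) ℚ}
    (h : cm2 (cxm N) (C.map fun q => (q : ℂ)) = 0) : cm2 N (C.map fun q => (q : ℝ)) = 0 := by
  ext p q
  have h1 := congrFun (congrFun h p) q
  have h2 : cm2 (cxm N) (C.map fun q => (q : ℂ)) p q =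
      ((cm2 N (C.map fun q => (q : ℝ)) p q : ℝ) : ℂ) := by
    have h3 : op2 (cxm N) = (op2 N).map fun x => (x : ℂ) := by
      ext ⟨i, k⟩ ⟨j, l⟩
      unfold op2 cxm
      simp only [Matrix.add_apply, Matrix.kronecker_apply, Matrix.map_apply, Matrix.one_apply]
      split_ifs <;> simp
    unfold cm2
    rw [h3]
    simp only [Matrix.sub_apply, Matrix.mul_apply, Matrix.map_apply]
    push_cast
    rfl
  rw [h2] at h1
  rw [Matrix.zero_apply] at h1 ⊢
  exact_mod_cast h1

/-! ### The two descriptions of the square -/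

/-- The pairs of indices. -/
abbrev e2 (n : ℕ) : (Fin 2 → Fin n) ≃ Fin n × Fin n := finTwoArrowEquiv (Fin n)

/-- The operator on the square with pairs as indices. -/
def rx {R : Type} (C : Matrix (Fin 2 → Fin n) (Fin 2 → Fin n) R) :
    Matrix (Fin n × Fin n) (Fin n × Fin n) R := C.submatrix (e2 n).symm (e2 n).symm

theorem rx_mul {R : Type} [CommRing R] (C D : Matrix (Fin 2 → Fin n) (Fin 2 → Fin n) R) :
    rx (C * D) = rx C * rx D := by
  unfold rx
  rw [Matrix.submatrix_mul_equiv]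

theorem rx_pw {R : Type} [CommRing R] (X : Matrix (Fin n) (Fin n) R) : rx (pw 2 X) = X ⊗ₖ X := by
  ext ⟨i, k⟩ ⟨j, l⟩
  unfold rx
  rw [Matrix.submatrix_apply, pw_apply, Fin.prod_univ_two, Matrix.kronecker_apply]
  rfl

theorem rx_inj {R : Type} {C D : Matrix (Fin 2 → Fin n) (Fin 2 → Fin n) R} (h : rx C = rx D) :
    C = D := by
  ext i j
  have h1 := congrFun (congrFun h (e2 n i)) (e2 n j)
  unfold rx at h1
  rwa [Matrix.submatrix_apply, Matrix.submatrix_apply, Equiv.symm_apply_apply,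
    Equiv.symm_apply_apply] at h1

theorem rx_surj {R : Type} (C : Matrix (Fin n × Fin n) (Fin n × Fin n) R) :
    ∃ D : Matrix (Fin 2 → Fin n) (Fin 2 → Fin n) R, rx D = C := by
  refine ⟨C.submatrix (e2 n) (e2 n), ?_⟩
  ext i j
  unfold rx
  rw [Matrix.submatrix_apply, Matrix.submatrix_apply, Equiv.apply_symm_apply,
    Equiv.apply_symm_apply]

end Pool.Agent.U157.FP
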